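import Pool.Agent.H337R3.Ent.Spec

open Finset Filter Topology

namespace Pool.Agent.Results.MP_1e9518_pr.EntropyPrecutoff

noncomputable section

/-- The graph `G` is vertex-transitive: its automorphism group acts transitively. -/
def VertexTransitive {V : Type} (G : SimpleGraph V) : Prop :=
  ∀ x y : V, ∃ φ : G ≃g G, φ x = y

/-- Transition matrix `P = (1/2)(I + A/D)` of the lazy simple random walk on `G`. -/
def lazySRW {V : Type} [Fintype V] [DecidableEq V] (G : SimpleGraph V) [DecidableRel G.Adj] :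
    Matrix V V ℝ :=
  fun x y => (if x = y then 1 / 2 else 0) + (if G.Adj x y then 1 / (2 * (G.degree x : ℝ)) else 0)

/-- Total variation distance to stationarity, `d(t) = max_x ‖P^t(x,·) - π‖_TV` with `π` the
uniform distribution on `V`. -/
def d {V : Type} [Fintype V] [DecidableEq V] (P : Matrix V V ℝ) (t : ℕ) : ℝ :=
  ⨆ x : V, (1 / 2 : ℝ) * ∑ y, |(P ^ t) x y - 1 / (Fintype.card V : ℝ)|

/-- Total variation mixing time `T_mix(ε) = min {t : d(t) ≤ ε}`. -/
def Tmix {V : Type} [Fintype V] [DecidableEq V] (P : Matrix V V ℝ) (ε : ℝ) : ℕ :=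
  sInf {t : ℕ | d P t ≤ ε}

/-- Relative entropy `H(t) = max_x ∑_y P^t(x,y) log (P^t(x,y) / π(y))` with `π` uniform. -/
def relEnt {V : Type} [Fintype V] [DecidableEq V] (P : Matrix V V ℝ) (t : ℕ) : ℝ :=
  ⨆ x : V, ∑ y, (P ^ t) x y * Real.log ((P ^ t) x y / (1 / (Fintype.card V : ℝ)))

/-- Entropic mixing time `T_ent(ε) = min {t : H(t) ≤ ε}`. -/
def Tent {V : Type} [Fintype V] [DecidableEq V] (P : Matrix V V ℝ) (ε : ℝ) : ℕ :=
  sInf {t : ℕ | relEnt P t ≤ ε}

/-- The second largest eigenvalue of an irreducible transition matrix `P` (for which the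
eigenvalue `1` is simple): the largest real eigenvalue different from `1`. -/
def lambda2 {V : Type} [Fintype V] [DecidableEq V] (P : Matrix V V ℝ) : ℝ :=
  sSup (spectrum ℝ P \ {1})

/-- Relaxation time `T_rel = 1 / (1 - λ₂)`. -/
def Trel {V : Type} [Fintype V] [DecidableEq V] (P : Matrix V V ℝ) : ℝ :=
  1 / (1 - lambda2 P)

/-- The product condition `T_mix / T_rel → ∞`, with `T_mix = T_mix(1/4)`. -/
def ProductCondition (V : ℕ → Type) [∀ n, Fintype (V n)] [∀ n, DecidableEq (V n)]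
    (P : ∀ n, Matrix (V n) (V n) ℝ) : Prop :=
  Tendsto (fun n => (Tmix (P n) (1 / 4) : ℝ) / Trel (P n)) atTop atTop

open Pool.Agent.H337R3.Ent

/-- facts about one chain -/
structure Facts {V : Type} [Fintype V] [DecidableEq V] (P : Matrix V V ℝ) : Prop where
  mono : ∀ t, relEnt P (t + 1) ≤ relEnt P t
  conv : ∀ ε : ℝ, 0 < ε → ∃ t, relEnt P t ≤ ε
  dconv : ∀ ε : ℝ, 0 < ε → ∃ t, d P t ≤ ε
  dnn : ∀ t, 0 ≤ d P t
  lam0 : 0 ≤ lambda2 P
  lam1 : lambda2 P < 1
  nn : ∀ t, 0 ≤ relEnt P t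
  f2 : ∀ a k M, 1 < M → relEnt P (a + k) ≤
    ((relEnt P a + 1) / Real.log M) * relEnt P k + M * (lambda2 P ^ k) ^ 2
  f3 : ∀ a k, relEnt P (a + k) ≤ 2 * d P a * relEnt P k + 2 * (lambda2 P ^ k) ^ 2
  f4 : ∀ t, d P t ≤ 2 * relEnt P t + 1 / 8

theorem facts {V : Type} [Fintype V] [DecidableEq V] (G : SimpleGraph V) [DecidableRel G.Adj]
    (hcard : 2 ≤ Fintype.card V) (hconn : G.Connected) (htr : VertexTransitive G) :
    Facts (lazySRW G) := by
  haveI : Nonempty V := hconn.nonempty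
  haveI : Nontrivial V := Fintype.one_lt_card_iff_nontrivial.1 (by omega)
  obtain ⟨x₀⟩ := hconn.nonempty
  have hG : ∀ x, G.degree x = G.degree x₀ := by
    intro x
    obtain ⟨φ, hφ⟩ := htr x₀ x
    rw [← hφ]
    exact φ.degree_eq x₀
  have hD : 0 < G.degree x₀ := hconn.preconnected.degree_pos_of_nontrivial x₀
  have hN : 0 < (Fintype.card V : ℝ) := by
    have : (0 : ℕ) < Fintype.card V := by omega
    exact_mod_cast this
  set P : Matrix V V ℝ := lazySRW G with hP
  have hgood : Good P := lazy_good G _ hD hG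
  obtain ⟨hl0, hl1, hc⟩ := spec G _ hD hG hconn
  change 0 ≤ lambda2 P at hl0
  change lambda2 P < 1 at hl1
  change Contr P (lambda2 P) at hc
  have hle : ∀ t x, Ent ((P ^ t) x) ≤ relEnt P t := fun t x =>
    le_ciSup (f := fun x : V => ∑ y, (P ^ t) x y * Real.log ((P ^ t) x y /
      (1 / (Fintype.card V : ℝ)))) (Set.finite_range _).bddAbove x
  have hdle : ∀ t x, (1 / 2 : ℝ) * ∑ y, |(P ^ t) x y - 1 / (Fintype.card V : ℝ)| ≤ d P t :=
    fun t x => le_ciSup (f := fun x : V => (1 / 2 : ℝ) * ∑ y, |(P ^ t) x y -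
      1 / (Fintype.card V : ℝ)|) (Set.finite_range _).bddAbove x
  have hnn : ∀ t, 0 ≤ relEnt P t := fun t =>
    (ent_nonneg hN _ ((hgood.pow t).nonneg x₀) ((hgood.pow t).row x₀)).trans (hle t x₀)
  have hsplit : ∀ a k x, (fun y => ∑ z, (P ^ a) x z * (P ^ k) z y) = (P ^ (a + k)) x := by
    intro a k x
    funext y
    rw [pow_add, Matrix.mul_apply]
  have hmain : ∀ a k x (M : ℝ), 0 < M → Ent ((P ^ (a + k)) x) ≤
      (∑ z, if (Fintype.card V : ℝ) * (P ^ a) x z ≤ M then 0 else (P ^ a) x z) * relEnt P k +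
        M * (lambda2 P ^ k) ^ 2 := by
    intro a k x M hM
    have h := main hN hgood hc ((P ^ a) x) ((hgood.pow a).nonneg x) ((hgood.pow a).row x) k
      (relEnt P k) M hM (hle k)
    rw [hsplit] at h
    exact h
  have hpow : ∀ η : ℝ, 0 < η → ∃ t : ℕ, (Fintype.card V : ℝ) * (lambda2 P ^ t) ^ 2 ≤ η := by
    intro η hη
    obtain ⟨t, ht⟩ := exists_pow_lt_of_lt_one (div_pos hη hN) hl1
    refine ⟨t, ?_⟩
    have h0 : 0 ≤ lambda2 P ^ t := pow_nonneg hl0 t
    have h1 : lambda2 P ^ t ≤ 1 := pow_le_one₀ hl0 hl1.le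
    have h2 : (lambda2 P ^ t) ^ 2 ≤ lambda2 P ^ t := by nlinarith
    rw [lt_div_iff₀ hN] at ht
    nlinarith
  have hzero : ∀ t x, Ent ((P ^ t) x) ≤ (Fintype.card V : ℝ) * (lambda2 P ^ t) ^ 2 := by
    intro t x
    have h := hmain 0 t x (Fintype.card V) hN
    rw [zero_add] at h
    have h2 : (∑ z, if (Fintype.card V : ℝ) * (P ^ 0) x z ≤ (Fintype.card V : ℝ) then 0
        else (P ^ 0) x z) = 0 := by
      refine sum_eq_zero fun z _ => ?_
      rw [if_pos]
      have h3 : (P ^ 0) x z ≤ 1 := by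
        rw [pow_zero, Matrix.one_apply]
        split_ifs <;> norm_num
      nlinarith
    rw [h2, zero_mul, zero_add] at h
    exact h
  refine ⟨fun t => ?_, fun ε hε => ?_, fun ε hε => ?_, fun t => ?_, hl0, hl1, hnn,
    fun a k M hM => ?_, fun a k => ?_, fun t => ?_⟩
  · refine ciSup_le fun x => ?_
    have h := jensen hN (fun z => P x z) (fun z => (P ^ t) z) (hgood.nonneg x) (hgood.row x)
      (hgood.pow t).nonneg
    have e : (fun y => ∑ z, P x z * (P ^ t) z y) = (P ^ (t + 1)) x := by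
      funext y
      rw [pow_succ', Matrix.mul_apply]
    rw [e] at h
    refine h.trans ?_
    calc ∑ z, P x z * Ent ((P ^ t) z) ≤ ∑ z, P x z * relEnt P t :=
          sum_le_sum fun z _ => mul_le_mul_of_nonneg_left (hle t z) (hgood.nonneg x z)
      _ = relEnt P t := by rw [← sum_mul, hgood.row, one_mul]
  · obtain ⟨t, ht⟩ := hpow ε hε
    exact ⟨t, ciSup_le fun x => (hzero t x).trans ht⟩
  · obtain ⟨t, ht⟩ := hpow (ε ^ 2) (by positivity)
    refine ⟨t, ciSup_le fun x => ?_⟩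
    have h1 : ∑ y, ((P ^ t) x y - 1 / (Fintype.card V : ℝ)) ^ 2 ≤ (lambda2 P ^ t) ^ 2 := by
      have hf0 : ∑ z, ((if z = x then (1 : ℝ) else 0) - 1 / (Fintype.card V : ℝ)) = 0 := by
        rw [sum_sub_distrib, sum_ite_eq', if_pos (mem_univ _), sum_const, card_univ, nsmul_eq_mul]
        field_simp
        ring
      have h2 := contr_pow hgood hc t _ hf0
      have h3 : ∀ y, ∑ z, ((if z = x then (1 : ℝ) else 0) - 1 / (Fintype.card V : ℝ)) *
          (P ^ t) z y = (P ^ t) x y - 1 / (Fintype.card V : ℝ) := by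
        intro y
        simp only [sub_mul, sum_sub_distrib, ← mul_sum, col (hgood.pow t), mul_one, ite_mul,
          one_mul, zero_mul, sum_ite_eq', mem_univ, if_true]
      have h4 : ∑ z, ((if z = x then (1 : ℝ) else 0) - 1 / (Fintype.card V : ℝ)) ^ 2 ≤ 1 := by
        have h5 : ∀ z, ((if z = x then (1 : ℝ) else 0) - 1 / (Fintype.card V : ℝ)) ^ 2 =
            (if z = x then (1 : ℝ) - 2 / (Fintype.card V : ℝ) else 0) +
              (1 / (Fintype.card V : ℝ)) ^ 2 := by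
          intro z
          split_ifs <;> ring
        rw [sum_congr rfl fun z _ => h5 z, sum_add_distrib, sum_ite_eq', if_pos (mem_univ _),
          sum_const, card_univ, nsmul_eq_mul]
        have h6 : (Fintype.card V : ℝ) * (1 / (Fintype.card V : ℝ)) ^ 2 =
            1 / (Fintype.card V : ℝ) := by field_simp
        rw [h6]
        have h7 : 2 / (Fintype.card V : ℝ) = 1 / (Fintype.card V : ℝ) + 1 / (Fintype.card V : ℝ) := by
          ring
        have h8 : 0 < 1 / (Fintype.card V : ℝ) := by positivity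
        linarith
      simp only [h3] at h2
      refine h2.trans ?_
      calc (lambda2 P ^ t) ^ 2 * _ ≤ (lambda2 P ^ t) ^ 2 * 1 :=
            mul_le_mul_of_nonneg_left h4 (sq_nonneg _)
        _ = _ := mul_one _
    have h2 : (∑ y, |(P ^ t) x y - 1 / (Fintype.card V : ℝ)|) ^ 2 ≤ ε ^ 2 := by
      have h3 := sq_sum_le_card_mul_sum_sq (s := (univ : Finset V))
        (f := fun y => |(P ^ t) x y - 1 / (Fintype.card V : ℝ)|)
      simp only [sq_abs, card_univ] at h3
      exact h3.trans ((mul_le_mul_of_nonneg_left h1 hN.le).trans ht)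
    have h3 : ∑ y, |(P ^ t) x y - 1 / (Fintype.card V : ℝ)| ≤ ε :=
      abs_le_of_sq_le_sq' h2 hε.le |>.2
    linarith
  · have : 0 ≤ (1 / 2 : ℝ) * ∑ y, |(P ^ t) x₀ y - 1 / (Fintype.card V : ℝ)| := by positivity
    exact this.trans (hdle t x₀)
  · refine ciSup_le fun x => ?_
    refine (hmain a k x M (by linarith)).trans ?_
    have hlog : 0 < Real.log M := Real.log_pos hM
    have h1 := mass_ent hN ((P ^ a) x) ((hgood.pow a).nonneg x) ((hgood.pow a).row x) M hM
    have h2 : (∑ z, if (Fintype.card V : ℝ) * (P ^ a) x z ≤ M then 0 else (P ^ a) x z) ≤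
        (relEnt P a + 1) / Real.log M := by
      rw [le_div_iff₀ hlog]
      exact h1.trans (by linarith [hle a x])
    linarith [mul_le_mul_of_nonneg_right h2 (hnn k)]
  · refine ciSup_le fun x => ?_
    refine (hmain a k x 2 (by norm_num)).trans ?_
    have h1 := mass_tv hN ((P ^ a) x) ((hgood.pow a).nonneg x) ((hgood.pow a).row x)
    have h2 := hdle a x
    have h3 : (∑ z, if (Fintype.card V : ℝ) * (P ^ a) x z ≤ 2 then 0 else (P ^ a) x z) ≤
        2 * d P a := h1.trans (by linarith)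
    linarith [mul_le_mul_of_nonneg_right h3 (hnn k)]
  · refine ciSup_le fun x => ?_
    have h1 := tv_ent hN ((P ^ t) x) ((hgood.pow t).nonneg x) ((hgood.pow t).row x)
    have h2 := hle t x
    linarith

section single

variable {V : Type} [Fintype V] [DecidableEq V] {P : Matrix V V ℝ}

theorem Facts.anti (h : Facts P) : Antitone (relEnt P) := antitone_nat_of_succ_le h.mono

theorem Facts.tent_le (h : Facts P) {ε : ℝ} (hε : 0 < ε) : relEnt P (Tent P ε) ≤ ε :=
  Nat.sInf_mem (h.conv ε hε)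

theorem Facts.tmix_le (h : Facts P) {ε : ℝ} (hε : 0 < ε) : d P (Tmix P ε) ≤ ε :=
  Nat.sInf_mem (h.dconv ε hε)

theorem tent_min {ε : ℝ} {t : ℕ} (h : relEnt P t ≤ ε) : Tent P ε ≤ t := Nat.sInf_le h

theorem Facts.trel_ge (h : Facts P) : 1 ≤ Trel P := by
  unfold Trel
  rw [le_div_iff₀ (by linarith [h.lam1])]
  linarith [h.lam0]

theorem Facts.time (h : Facts P) {c : ℝ} (hc : 0 ≤ c) : ∃ s : ℕ, (s : ℝ) ≤ (c + 1) * Trel P ∧
    (lambda2 P ^ s) ^ 2 ≤ Real.exp (-c) := by
  refine ⟨⌈c * Trel P⌉₊, ?_, ?_⟩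
  · have h1 := (Nat.ceil_lt_add_one (mul_nonneg hc (zero_le_one.trans h.trel_ge))).le
    have h2 := h.trel_ge
    linarith
  · set s := ⌈c * Trel P⌉₊ with hs
    have h1 : c * Trel P ≤ s := Nat.le_ceil _
    have hg : 0 < 1 - lambda2 P := by linarith [h.lam1]
    have h2 : c ≤ s * (1 - lambda2 P) := by
      unfold Trel at h1
      rw [mul_one_div, div_le_iff₀ hg] at h1
      exact h1
    have h3 : lambda2 P ≤ Real.exp (-(1 - lambda2 P)) := by
      have := Real.add_one_le_exp (-(1 - lambda2 P))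
      linarith
    have h4 : lambda2 P ^ s ≤ Real.exp (-c) := by
      calc lambda2 P ^ s ≤ Real.exp (-(1 - lambda2 P)) ^ s := pow_le_pow_left₀ h.lam0 h3 s
        _ = Real.exp (s * -(1 - lambda2 P)) := by rw [← Real.exp_nat_mul]
        _ ≤ Real.exp (-c) := Real.exp_le_exp.2 (by linarith)
    have h5 : 0 ≤ lambda2 P ^ s := pow_nonneg h.lam0 s
    have h6 : lambda2 P ^ s ≤ 1 := pow_le_one₀ h.lam0 h.lam1.le
    nlinarith

theorem Facts.pow_anti (h : Facts P) {s k : ℕ} (hsk : s ≤ k) :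
    (lambda2 P ^ k) ^ 2 ≤ (lambda2 P ^ s) ^ 2 :=
  pow_le_pow_left₀ (pow_nonneg h.lam0 k) (pow_le_pow_of_le_one h.lam0 h.lam1.le hsk) 2

end single

theorem g1 (ε δ : ℝ) (hε : 0 < ε) (hδ : 0 < δ) : ∃ C : ℝ, 0 < C ∧ ∀ (V : Type) [Fintype V]
    [DecidableEq V] (P : Matrix V V ℝ), Facts P → (Tent P ε : ℝ) ≤ 2 * Tent P δ + C * Trel P := by
  set L : ℝ := 2 * δ * (δ + 1) / ε with hL
  have hL0 : 0 < L := by positivity
  set M : ℝ := Real.exp L with hM
  have hM1 : 1 < M := Real.one_lt_exp_iff.2 hL0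
  set c : ℝ := max 0 (Real.log (2 * M / ε)) with hc
  have hc0 : 0 ≤ c := le_max_left _ _
  refine ⟨c + 1, by linarith, fun V _ _ P h => ?_⟩
  obtain ⟨s, hs1, hs2⟩ := h.time hc0
  have h1 : M * Real.exp (-c) ≤ ε / 2 := by
    have h2 : 0 < 2 * M / ε := by positivity
    have h3 : Real.exp (-c) ≤ ε / (2 * M) := by
      rw [Real.exp_neg]
      have h4 : 2 * M / ε ≤ Real.exp c := by
        rw [← Real.log_le_iff_le_exp h2]
        exact le_max_right _ _
      calc (Real.exp c)⁻¹ ≤ (2 * M / ε)⁻¹ := inv_anti₀ h2 h4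
        _ = ε / (2 * M) := by rw [inv_div]
    calc M * Real.exp (-c) ≤ M * (ε / (2 * M)) := mul_le_mul_of_nonneg_left h3 (by positivity)
      _ = ε / 2 := by field_simp
  have h2 := h.f2 (Tent P δ) (Tent P δ + s) M hM1
  have h3 : relEnt P (Tent P δ + s) ≤ δ := (h.anti (Nat.le_add_right _ _)).trans (h.tent_le hδ)
  have h4 : (relEnt P (Tent P δ) + 1) / Real.log M ≤ (δ + 1) / L := by
    rw [hM, Real.log_exp]
    exact div_le_div_of_nonneg_right (by linarith [h.tent_le hδ]) hL0.le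
  have h5 : (relEnt P (Tent P δ) + 1) / Real.log M * relEnt P (Tent P δ + s) ≤
      (δ + 1) / L * δ := mul_le_mul h4 h3 (h.nn _) (by positivity)
  have h6 : (δ + 1) / L * δ = ε / 2 := by
    rw [hL]
    field_simp
  have h7 : M * (lambda2 P ^ (Tent P δ + s)) ^ 2 ≤ ε / 2 := by
    refine le_trans (mul_le_mul_of_nonneg_left ?_ (by positivity)) h1
    exact (h.pow_anti (Nat.le_add_left s _)).trans hs2
  have h8 : Tent P ε ≤ Tent P δ + (Tent P δ + s) := tent_min (by linarith)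
  have h9 : (Tent P ε : ℝ) ≤ Tent P δ + (Tent P δ + s) := by exact_mod_cast h8
  linarith

theorem g2 (ε δ : ℝ) (hε : 0 < ε) (hδ : 0 < δ) : ∃ C : ℝ, 0 < C ∧ ∀ (V : Type) [Fintype V]
    [DecidableEq V] (P : Matrix V V ℝ), Facts P →
      (Tent P ε : ℝ) ≤ Tent P δ + Tmix P (ε / (4 * δ)) + C * Trel P := by
  set c : ℝ := max 0 (Real.log (4 / ε)) with hc
  have hc0 : 0 ≤ c := le_max_left _ _
  refine ⟨c + 1, by linarith, fun V _ _ P h => ?_⟩
  obtain ⟨s, hs1, hs2⟩ := h.time hc0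
  have h1 : 2 * Real.exp (-c) ≤ ε / 2 := by
    have h2 : 0 < 4 / ε := by positivity
    have h3 : Real.exp (-c) ≤ ε / 4 := by
      rw [Real.exp_neg]
      have h4 : 4 / ε ≤ Real.exp c := by
        rw [← Real.log_le_iff_le_exp h2]
        exact le_max_right _ _
      calc (Real.exp c)⁻¹ ≤ (4 / ε)⁻¹ := inv_anti₀ h2 h4
        _ = ε / 4 := by rw [inv_div]
    linarith
  have hθ : 0 < ε / (4 * δ) := by positivity
  have h2 := h.f3 (Tmix P (ε / (4 * δ))) (Tent P δ + s)
  have h3 : relEnt P (Tent P δ + s) ≤ δ := (h.anti (Nat.le_add_right _ _)).trans (h.tent_le hδ)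
  have h5 : 2 * d P (Tmix P (ε / (4 * δ))) * relEnt P (Tent P δ + s) ≤
      2 * (ε / (4 * δ)) * δ :=
    mul_le_mul (by linarith [h.tmix_le hθ]) h3 (h.nn _) (by positivity)
  have h6 : 2 * (ε / (4 * δ)) * δ = ε / 2 := by
    field_simp
    norm_num
  have h7 : 2 * (lambda2 P ^ (Tent P δ + s)) ^ 2 ≤ ε / 2 := by
    refine le_trans (mul_le_mul_of_nonneg_left ?_ (by norm_num)) h1
    exact (h.pow_anti (Nat.le_add_left s _)).trans hs2
  have h8 : Tent P ε ≤ Tmix P (ε / (4 * δ)) + (Tent P δ + s) := tent_min (by linarith)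
  have h9 : (Tent P ε : ℝ) ≤ Tmix P (ε / (4 * δ)) + (Tent P δ + s) := by exact_mod_cast h8
  linarith

/-- Under the product condition, for all fixed `0 < ε < δ` the ratio `T_ent(ε) / T_ent(δ)` is
eventually between `1` and `1 + η + min 1 (T_mix(ε / (4 δ)) / T_ent(δ))`. In particular it is
eventually at most `2 + η`, and it tends to `1` when `T_mix(ε / (4 δ)) / T_ent(δ)` tends to `0`. -/
theorem result (V : ℕ → Type) [∀ n, Fintype (V n)] [∀ n, DecidableEq (V n)]
    (G : ∀ n, SimpleGraph (V n)) [∀ n, DecidableRel (G n).Adj]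
    (hcard : Tendsto (fun n => Fintype.card (V n)) atTop atTop)
    (hconn : ∀ n, (G n).Connected) (htr : ∀ n, VertexTransitive (G n))
    (hprod : ProductCondition V (fun n => lazySRW (G n))) :
    ∀ ε δ : ℝ, 0 < ε → ε < δ → ∀ η : ℝ, 0 < η → ∀ᶠ n in atTop,
      1 ≤ (Tent (lazySRW (G n)) ε : ℝ) / Tent (lazySRW (G n)) δ ∧
      (Tent (lazySRW (G n)) ε : ℝ) / Tent (lazySRW (G n)) δ ≤
        1 + η + min 1 ((Tmix (lazySRW (G n)) (ε / (4 * δ)) : ℝ) / Tent (lazySRW (G n)) δ) := by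
  have hF : ∀ᶠ n in atTop, Facts (lazySRW (G n)) := by
    filter_upwards [hcard.eventually_ge_atTop 2] with n hn
    exact facts (G n) hn (hconn n) (htr n)
  -- the relaxation time is negligible
  have hrel : ∀ δ : ℝ, 0 < δ → ∀ K : ℝ, 0 < K → ∀ᶠ n in atTop,
      K * Trel (lazySRW (G n)) ≤ Tent (lazySRW (G n)) δ := by
    intro δ hδ K hK
    obtain ⟨C, hC, hg⟩ := g1 (1 / 16) δ (by norm_num) hδ
    filter_upwards [hF, hprod.eventually_ge_atTop (2 * K + C)] with n hn hp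
    have h1 := hg _ _ hn
    have h2 : (Tmix (lazySRW (G n)) (1 / 4) : ℝ) ≤ Tent (lazySRW (G n)) (1 / 16) := by
      have h3 : Tmix (lazySRW (G n)) (1 / 4) ≤ Tent (lazySRW (G n)) (1 / 16) := by
        refine Nat.sInf_le ?_
        change d _ _ ≤ _
        have h4 := hn.f4 (Tent (lazySRW (G n)) (1 / 16))
        have h5 := hn.tent_le (ε := 1 / 16) (by norm_num)
        linarith
      exact_mod_cast h3
    have h3 := hn.trel_ge
    rw [le_div_iff₀ (by linarith)] at hp
    linarith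
  have hpos : ∀ δ : ℝ, 0 < δ → ∀ᶠ n in atTop, (0 : ℝ) < Tent (lazySRW (G n)) δ := by
    intro δ hδ
    filter_upwards [hF, hrel δ hδ 1 one_pos] with n hn h1
    have := hn.trel_ge
    linarith
  have hge : ∀ ε δ : ℝ, 0 < ε → ε < δ → ∀ᶠ n in atTop,
      (Tent (lazySRW (G n)) δ : ℝ) ≤ Tent (lazySRW (G n)) ε := by
    intro ε δ hε hεδ
    filter_upwards [hF] with n hn
    have : Tent (lazySRW (G n)) δ ≤ Tent (lazySRW (G n)) ε :=
      tent_min ((hn.tent_le hε).trans hεδ.le)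
    exact_mod_cast this
  have hpre : ∀ ε δ : ℝ, 0 < ε → 0 < δ → ∀ η : ℝ, 0 < η → ∀ᶠ n in atTop,
      (Tent (lazySRW (G n)) ε : ℝ) ≤ (2 + η) * Tent (lazySRW (G n)) δ := by
    intro ε δ hε hδ η hη
    obtain ⟨C, hC, hg⟩ := g1 ε δ hε hδ
    filter_upwards [hF, hrel δ hδ (C / η) (by positivity)] with n hn h1
    have h2 := hg _ _ hn
    have h3 : C * Trel (lazySRW (G n)) ≤ η * Tent (lazySRW (G n)) δ := by
      have h4 := mul_le_mul_of_nonneg_left h1 hη.le
      have h5 : η * (C / η * Trel (lazySRW (G n))) = C * Trel (lazySRW (G n)) := by field_simp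
      linarith
    linarith
  have hcmp : ∀ ε δ : ℝ, 0 < ε → ε < δ → ∀ η : ℝ, 0 < η → ∀ᶠ n in atTop,
      (Tent (lazySRW (G n)) ε : ℝ) ≤ (1 + η) * Tent (lazySRW (G n)) δ +
        Tmix (lazySRW (G n)) (ε / (4 * δ)) := by
    intro ε δ hε hεδ η hη
    have hδ := hε.trans hεδ
    obtain ⟨C, hC, hg⟩ := g2 ε δ hε hδ
    filter_upwards [hF, hrel δ hδ (C / η) (by positivity)] with n hn h1
    have h2 := hg _ _ hn
    have h3 : C * Trel (lazySRW (G n)) ≤ η * Tent (lazySRW (G n)) δ := by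
      have h4 := mul_le_mul_of_nonneg_left h1 hη.le
      have h5 : η * (C / η * Trel (lazySRW (G n))) = C * Trel (lazySRW (G n)) := by field_simp
      linarith
    linarith
  intro ε δ hε hεδ η hη
  filter_upwards [hpos δ (hε.trans hεδ), hge ε δ hε hεδ,
    hpre ε δ hε (hε.trans hεδ) η hη, hcmp ε δ hε hεδ η hη] with n h1 h2 h3 h4
  refine ⟨?_, ?_⟩
  · rw [le_div_iff₀ h1, one_mul]
    exact h2
  · rcases min_choice (1 : ℝ) ((Tmix (lazySRW (G n)) (ε / (4 * δ)) : ℝ) /
      Tent (lazySRW (G n)) δ) with h | h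
    · rw [h, div_le_iff₀ h1]
      linarith
    · rw [h, div_le_iff₀ h1, add_mul, div_mul_cancel₀ _ h1.ne']
      exact h4

end

end Pool.Agent.Results.MP_1e9518_pr.EntropyPrecutoff
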